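import Mathlib
import Pool.Agent.Helper88.Ric.Stmts

/-!
MP_092777_ag, module LV: calculus of Levi forms.
-/

set_option autoImplicit false

open scoped ContDiff Manifold Topology
open Complex Filter

noncomputable section

namespace RicP

/-- the Levi form in terms of second derivatives -/
theorem LV_formula {φ : E → ℝ} {p : E} (hd : ∀ᶠ y in 𝓝 p, DifferentiableAt ℝ φ y)
    {B : E → E → ℝ}
    (hB : ∀ w, ∃ L : E →L[ℝ] ℝ, HasFDerivAt (fun y => fderiv ℝ φ y w) L p ∧ ∀ v, L v = B v w)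
    (v w : E) :
    levi φ p v w = (((B v w + B (I • v) (I • w) : ℝ) : ℂ)
      + I * ((B v (I • w) - B (I • v) w : ℝ) : ℂ)) / 4 := by
  obtain ⟨L₁, hL₁, hL₁'⟩ := hB w
  obtain ⟨L₂, hL₂, hL₂'⟩ := hB (I • w)
  have hev : dzb w (toC φ) =ᶠ[𝓝 p] fun y =>
      (((fderiv ℝ φ y w : ℝ) : ℂ) + I * ((fderiv ℝ φ y (I • w) : ℝ) : ℂ)) / 2 := by
    filter_upwards [hd] with y hy
    have h1 : HasFDerivAt (toC φ) (ofRealCLM.comp (fderiv ℝ φ y)) y :=
      ofRealCLM.hasFDerivAt.comp y hy.hasFDerivAt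
    unfold dzb
    rw [h1.fderiv]
    simp only [ContinuousLinearMap.comp_apply, ofRealCLM_apply]
  have hder : HasFDerivAt (fun y =>
      (((fderiv ℝ φ y w : ℝ) : ℂ) + I * ((fderiv ℝ φ y (I • w) : ℝ) : ℂ)) / 2)
      ((2 : ℂ)⁻¹ • (ofRealCLM.comp L₁ + I • (ofRealCLM.comp L₂))) p := by
    have h1 : HasFDerivAt (fun y => ((fderiv ℝ φ y w : ℝ) : ℂ)) (ofRealCLM.comp L₁) p :=
      ofRealCLM.hasFDerivAt.comp p hL₁
    have h2 : HasFDerivAt (fun y => ((fderiv ℝ φ y (I • w) : ℝ) : ℂ)) (ofRealCLM.comp L₂) p :=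
      ofRealCLM.hasFDerivAt.comp p hL₂
    have h3 := (h1.add (h2.const_mul I)).const_mul (2 : ℂ)⁻¹
    refine h3.congr_of_eventuallyEq ?_
    filter_upwards with y
    simp only [Pi.add_apply]
    rw [div_eq_inv_mul]
  unfold levi
  have hfd : fderiv ℝ (dzb w (toC φ)) p
      = (2 : ℂ)⁻¹ • (ofRealCLM.comp L₁ + I • (ofRealCLM.comp L₂)) := by
    rw [hev.fderiv_eq]
    exact hder.fderiv
  unfold dz
  rw [hfd]
  simp only [ContinuousLinearMap.smul_apply, ContinuousLinearMap.add_apply,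
    ContinuousLinearMap.comp_apply, ofRealCLM_apply, smul_eq_mul, hL₁', hL₂']
  push_cast
  linear_combination ((-1 : ℂ) / 4 * (B (I • v) (I • w) : ℂ)) * I_sq

theorem LV_eventually_diff {φ : E → ℝ} {p : E} (h : ContDiffAt ℝ 2 φ p) :
    ∀ᶠ y in 𝓝 p, DifferentiableAt ℝ φ y := by
  filter_upwards [h.eventually (by norm_num)] with y hy
  exact hy.differentiableAt (by norm_num)

theorem LV_fderiv_diff {φ : E → ℝ} {p : E} (h : ContDiffAt ℝ 2 φ p) :
    DifferentiableAt ℝ (fderiv ℝ φ) p :=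
  (h.fderiv_right (m := 1) (by norm_num)).differentiableAt (by norm_num)

theorem LV_second {φ : E → ℝ} {p : E} (h : ContDiffAt ℝ 2 φ p) (w : E) :
    ∃ L : E →L[ℝ] ℝ, HasFDerivAt (fun y => fderiv ℝ φ y w) L p ∧
      ∀ v, L v = fderiv ℝ (fderiv ℝ φ) p v w := by
  have h1 := (LV_fderiv_diff h).hasFDerivAt
  have h2 := h1.clm_apply (hasFDerivAt_const w p)
  refine ⟨_, h2, ?_⟩
  intro v
  simp

theorem LV_formula' {φ : E → ℝ} {p : E} (h : ContDiffAt ℝ 2 φ p) (v w : E) :
    levi φ p v w = (((fderiv ℝ (fderiv ℝ φ) p v w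
        + fderiv ℝ (fderiv ℝ φ) p (I • v) (I • w) : ℝ) : ℂ)
      + I * ((fderiv ℝ (fderiv ℝ φ) p v (I • w)
        - fderiv ℝ (fderiv ℝ φ) p (I • v) w : ℝ) : ℂ)) / 4 :=
  LV_formula (LV_eventually_diff h) (LV_second h) v w

/-- complex second derivative -/
theorem LV_csecond {G : Type*} [NormedAddCommGroup G] [NormedSpace ℂ G] [NormedSpace ℝ G]
    [IsScalarTower ℝ ℂ G] {h : E → G} {x : E} (hh : ContDiffAt ℂ 2 h x) (w : E) :
    HasFDerivAt (𝕜 := ℝ) (fun y => fderiv ℂ h y w)
      (((fderiv ℂ (fderiv ℂ h) x).flip w).restrictScalars ℝ) x := by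
  have h1 : DifferentiableAt ℂ (fderiv ℂ h) x :=
    (hh.fderiv_right (m := 1) (by norm_num)).differentiableAt (by norm_num)
  have h2 := h1.hasFDerivAt.clm_apply (hasFDerivAt_const w x)
  have h3 := h2.restrictScalars ℝ
  refine h3.congr_fderiv ?_
  ext v <;> simp

theorem st_LV : ST_LV := by
  have hcongr : ∀ (φ ψ : E → ℝ) (x v w : E), φ =ᶠ[𝓝 x] ψ → levi φ x v w = levi ψ x v w := by
    intro φ ψ x v w h
    have h1 : toC φ =ᶠ[𝓝 x] toC ψ := by
      filter_upwards [h] with y hy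
      unfold toC
      rw [hy]
    have h2 : dzb w (toC φ) =ᶠ[𝓝 x] dzb w (toC ψ) := by
      filter_upwards [h1.fderiv (𝕜 := ℝ)] with y hy
      unfold dzb
      rw [hy]
    unfold levi dz
    rw [h2.fderiv_eq]
  have hre : ∀ (f : E → ℂ) (x v w : E), ContDiffAt ℂ 2 f x →
      levi (fun y => (f y).re) x v w = 0 := by
    intro f x v w hf
    have hev : ∀ᶠ y in 𝓝 x, DifferentiableAt ℂ f y := by
      filter_upwards [hf.eventually (by norm_num)] with y hy
      exact hy.differentiableAt (by norm_num)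
    have hd : ∀ᶠ y in 𝓝 x, DifferentiableAt ℝ (fun y => (f y).re) y := by
      filter_upwards [hev] with y hy
      exact reCLM.differentiableAt.comp y (hy.restrictScalars ℝ)
    have hB : ∀ w, ∃ L : E →L[ℝ] ℝ, HasFDerivAt (fun y => fderiv ℝ (fun y => (f y).re) y w) L x ∧
        ∀ v, L v = (fderiv ℂ (fderiv ℂ f) x v w).re := by
      intro w
      have h1 := LV_csecond hf w
      have h2 := reCLM.hasFDerivAt.comp x h1
      refine ⟨_, h2.congr_of_eventuallyEq ?_, ?_⟩
      · filter_upwards [hev] with y hy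
        have h3 : HasFDerivAt (fun y => (f y).re)
            (reCLM.comp ((fderiv ℂ f y).restrictScalars ℝ)) y :=
          reCLM.hasFDerivAt.comp y (hy.hasFDerivAt.restrictScalars ℝ)
        rw [h3.fderiv]
        rfl
      · intro v
        rfl
    rw [LV_formula hd hB v w]
    simp only [map_smul, ContinuousLinearMap.smul_apply, smul_eq_mul]
    set z := fderiv ℂ (fderiv ℂ f) x v w
    have e1 : I * (I * z) = - z := by
      rw [← mul_assoc, I_mul_I]
      ring
    rw [e1]
    simp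
  have hadd : ∀ (φ ψ : E → ℝ) (x v w : E), ContDiffAt ℝ 2 φ x → ContDiffAt ℝ 2 ψ x →
      levi (fun y => φ y + ψ y) x v w = levi φ x v w + levi ψ x v w := by
    intro φ ψ x v w h1 h2
    have h3 : ContDiffAt ℝ 2 (fun y => φ y + ψ y) x := h1.add h2
    have h4 : fderiv ℝ (fderiv ℝ (fun y => φ y + ψ y)) x
        = fderiv ℝ (fderiv ℝ φ) x + fderiv ℝ (fderiv ℝ ψ) x := by
      have h5 : fderiv ℝ (fun y => φ y + ψ y) =ᶠ[𝓝 x] fun y => fderiv ℝ φ y + fderiv ℝ ψ y := by
        filter_upwards [LV_eventually_diff h1, LV_eventually_diff h2] with y hy1 hy2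
        exact (hy1.hasFDerivAt.add hy2.hasFDerivAt).fderiv
      rw [h5.fderiv_eq]
      exact ((LV_fderiv_diff h1).hasFDerivAt.add (LV_fderiv_diff h2).hasFDerivAt).fderiv
    rw [LV_formula' h1, LV_formula' h2, LV_formula' h3, h4]
    simp only [ContinuousLinearMap.add_apply]
    push_cast
    ring
  refine ⟨?_, hre, ?_, hadd, hcongr⟩
  · intro φ h x v w hφ hh
    have hev : ∀ᶠ y in 𝓝 x, DifferentiableAt ℂ h y := by
      filter_upwards [hh.eventually (by norm_num)] with y hy
      exact hy.differentiableAt (by norm_num)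
    have hcont : ContinuousAt h x := hh.continuousAt
    have hevφ : ∀ᶠ y in 𝓝 x, DifferentiableAt ℝ φ (h y) :=
      hcont.eventually (LV_eventually_diff hφ)
    have hfd : ∀ᶠ y in 𝓝 x, HasFDerivAt (fun y => φ (h y))
        ((fderiv ℝ φ (h y)).comp ((fderiv ℂ h y).restrictScalars ℝ)) y := by
      filter_upwards [hev, hevφ] with y hy1 hy2
      exact hy2.hasFDerivAt.comp y (hy1.hasFDerivAt.restrictScalars ℝ)
    have hd : ∀ᶠ y in 𝓝 x, DifferentiableAt ℝ (fun y => φ (h y)) y := by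
      filter_upwards [hfd] with y hy
      exact hy.differentiableAt
    have hx : HasFDerivAt h ((fderiv ℂ h x).restrictScalars ℝ) x :=
      (hh.differentiableAt (by norm_num)).hasFDerivAt.restrictScalars ℝ
    have hB : ∀ w, ∃ L : E →L[ℝ] ℝ,
        HasFDerivAt (fun y => fderiv ℝ (fun y => φ (h y)) y w) L x ∧
        ∀ v, L v = fderiv ℝ (fderiv ℝ φ) (h x) (fderiv ℂ h x v) (fderiv ℂ h x w)
          + fderiv ℝ φ (h x) (fderiv ℂ (fderiv ℂ h) x v w) := by
      intro w
      have h1 : HasFDerivAt (fun y => fderiv ℝ φ (h y))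
          ((fderiv ℝ (fderiv ℝ φ) (h x)).comp ((fderiv ℂ h x).restrictScalars ℝ)) x :=
        (LV_fderiv_diff hφ).hasFDerivAt.comp x hx
      have h2 := LV_csecond hh w
      have h3 := h1.clm_apply h2
      refine ⟨_, h3.congr_of_eventuallyEq ?_, ?_⟩
      · filter_upwards [hfd] with y hy
        rw [hy.fderiv]
        rfl
      · intro v
        simp only [ContinuousLinearMap.add_apply, ContinuousLinearMap.comp_apply,
          ContinuousLinearMap.flip_apply, ContinuousLinearMap.coe_restrictScalars']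
        ring
    rw [LV_formula hd hB v w, LV_formula' hφ]
    simp only [map_smul, ContinuousLinearMap.smul_apply]
    have e1 : fderiv ℝ φ (h x) (I • I • (fderiv ℂ (fderiv ℂ h) x v) w)
        = - fderiv ℝ φ (h x) ((fderiv ℂ (fderiv ℂ h) x v) w) := by
      rw [smul_smul, I_mul_I, ← map_neg]
      congr 1
      rw [neg_smul, one_smul]
    rw [e1]
    push_cast
    ring
  · intro f x v w hf hx
    set g : E → ℂ := fun y => Complex.log (f y / f x) + (Real.log ‖f x‖ : ℂ) with hg
    have hgd : ContDiffAt ℂ 2 g x := by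
      have h1 : ContDiffAt ℂ 2 (fun y => f y / f x) x := hf.div_const (f x)
      have h2 : ContDiffAt ℂ 2 Complex.log (f x / f x) := by
        apply Complex.contDiffAt_log
        rw [div_self hx]
        exact Complex.one_mem_slitPlane
      exact (h2.comp x h1).add contDiffAt_const
    have hev : (fun y => Real.log ‖f y‖) =ᶠ[𝓝 x] fun y => (g y).re := by
      have hne : ∀ᶠ y in 𝓝 x, f y ≠ 0 := hf.continuousAt.eventually_ne hx
      filter_upwards [hne] with y hy
      rw [hg]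
      simp only [add_re, Complex.log_re, ofReal_re]
      rw [norm_div, Real.log_div (norm_ne_zero_iff.mpr hy) (norm_ne_zero_iff.mpr hx)]
      ring
    rw [hcongr _ _ x v w hev]
    exact hre g x v w hgd

end RicP
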